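import Mathlib

/-!
# Closed images of paralindelöf spaces: Lindelöf fibres

Let `f : X → Y` be a closed mapping with Lindelöf fibres (for example a perfect mapping) of a
paralindelöf space `X` onto `Y`. Then `Y` is paralindelöf. No separation axiom is used.

Idea. For a locally countable family `P` of subsets of `X` the family of the images `f '' p` is
locally countable in `Y` (`LocCount.image`). Let `U` be an open cover of `Y`, let `V` be a locally
countable open refinement of the cover `f ⁻¹' u`. Every `y` has an open neighbourhood meeting only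
countably many `f '' v`; let `P` be a locally countable open refinement of the preimages of these
neighbourhoods. For `v` in `V` let `S v` be the union of all `p` in `P` with
`f '' p ∩ f '' v ≠ ∅`. It is an open set containing `f ⁻¹' (f '' v)`, so the set `g v` of all `y`
whose fibre is contained in `S v` is open and contains `f '' v`, and it is contained in the union of
the sets `f '' p` with `f '' p ∩ f '' v ≠ ∅`; therefore the family of the `g v` is locally
countable. The sets `g v ∩ u v`, with `v ⊆ f ⁻¹' (u v)`, are the required refinement.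
-/

set_option autoImplicit false

open Set Topology

namespace Pool.Agent.Results.MP_6bd103_gt.LindelofFibres

universe u v

/-- A family `𝒱` of subsets of `X` is locally countable if every point of `X` has a neighbourhood
that meets only countably many members of `𝒱`. -/
def LocallyCountable {X : Type u} [TopologicalSpace X] (𝒱 : Set (Set X)) : Prop :=
  ∀ x : X, ∃ O ∈ 𝓝 x, {V ∈ 𝒱 | (V ∩ O).Nonempty}.Countable

/-- `𝒱` refines `𝒰`: every member of `𝒱` is contained in a member of `𝒰`. -/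
def Refines {X : Type u} (𝒱 𝒰 : Set (Set X)) : Prop := ∀ V ∈ 𝒱, ∃ U ∈ 𝒰, V ⊆ U

/-- A space is paralindelöf if every open cover has a locally countable open refinement (which is
again a cover). -/
def Paralindelof (X : Type u) [TopologicalSpace X] : Prop :=
  ∀ 𝒰 : Set (Set X), (∀ U ∈ 𝒰, IsOpen U) → ⋃₀ 𝒰 = univ →
    ∃ 𝒱 : Set (Set X), (∀ V ∈ 𝒱, IsOpen V) ∧ ⋃₀ 𝒱 = univ ∧ Refines 𝒱 𝒰 ∧ LocallyCountable 𝒱

variable {X : Type u} {Y : Type v} [TopologicalSpace X] [TopologicalSpace Y] {f : X → Y}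

/-- The set of all `y` whose fibre is contained in an open set is open. -/
theorem isOpen_sharp (hcl : IsClosedMap f) {O : Set X} (hO : IsOpen O) :
    IsOpen {y : Y | f ⁻¹' {y} ⊆ O} := by
  have h : {y : Y | f ⁻¹' {y} ⊆ O} = (f '' Oᶜ)ᶜ := by
    ext y
    simp only [mem_ofPred_eq, mem_compl_iff, mem_image, not_exists, not_and, subset_def,
      mem_preimage, mem_singleton_iff]
    constructor
    · intro h x hx hxy
      exact hx (h x hxy)
    · intro h x hxy
      by_contra hx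
      exact h x hx hxy
  rw [h]
  exact (hcl _ hO.isClosed_compl).isOpen_compl

/-- Each point of `Y` has an open neighbourhood meeting only countably many images of the members of
a locally countable family. -/
theorem image_countable (hcl : IsClosedMap f) (hL : ∀ y, IsLindelof (f ⁻¹' {y}))
    {P : Set (Set X)} (hP : LocallyCountable P) (y : Y) :
    ∃ W : Set Y, IsOpen W ∧ y ∈ W ∧ {p ∈ P | (f '' p ∩ W).Nonempty}.Countable := by
  classical
  choose O hO hOc using hP
  obtain ⟨t, htc, ht⟩ := (hL y).elim_countable_subcover (fun x : X => interior (O x))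
    (fun _ => isOpen_interior) (fun x _ => mem_iUnion.2 ⟨x, mem_interior_iff_mem_nhds.2 (hO x)⟩)
  let G : Set X := ⋃ x ∈ t, interior (O x)
  have hG : IsOpen G := isOpen_biUnion fun _ _ => isOpen_interior
  refine ⟨{z : Y | f ⁻¹' {z} ⊆ G}, isOpen_sharp hcl hG, ht, ?_⟩
  refine (htc.biUnion fun x _ => hOc x).mono ?_
  rintro p ⟨hp, z, ⟨x, hx, rfl⟩, hz⟩
  have hxG : x ∈ G := hz rfl
  obtain ⟨a, ha, hxa⟩ := mem_iUnion₂.1 hxG
  exact mem_iUnion₂.2 ⟨a, ha, hp, x, hx, interior_subset hxa⟩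

/-- Let `f : X → Y` be a closed mapping (a continuous surjection that maps closed sets to closed
sets) all of whose fibres are Lindelöf. If `X` is paralindelöf, then so is `Y`. In particular perfect
mappings preserve paralindelöf spaces. -/
theorem result (hf : Continuous f) (hs : Function.Surjective f) (hcl : IsClosedMap f)
    (hL : ∀ y, IsLindelof (f ⁻¹' {y})) (hX : Paralindelof X) : Paralindelof Y := by
  classical
  intro 𝒰 hU hcov
  -- a locally countable open refinement of the preimages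
  obtain ⟨𝒱, hVo, hVc, hVr, hVl⟩ := hX ((fun U => f ⁻¹' U) '' 𝒰)
    (by rintro _ ⟨U, hU', rfl⟩; exact (hU U hU').preimage hf)
    (by
      refine eq_univ_of_forall fun x => ?_
      obtain ⟨U, hU', hx⟩ := mem_sUnion.1 (hcov ▸ mem_univ (f x) : f x ∈ ⋃₀ 𝒰)
      exact mem_sUnion.2 ⟨_, ⟨U, hU', rfl⟩, hx⟩)
  have hVU : ∀ V ∈ 𝒱, ∃ U ∈ 𝒰, V ⊆ f ⁻¹' U := by
    intro V hV
    obtain ⟨_, ⟨U, hU', rfl⟩, h⟩ := hVr V hV
    exact ⟨U, hU', h⟩
  choose! u hu hVu using hVU
  -- neighbourhoods meeting only countably many images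
  choose W hWo hyW hWc using fun y => image_countable hcl hL hVl y
  obtain ⟨P, hPo, hPc, hPr, hPl⟩ := hX (range fun y => f ⁻¹' W y)
    (by rintro _ ⟨y, rfl⟩; exact (hWo y).preimage hf)
    (eq_univ_of_forall fun x => mem_sUnion.2 ⟨_, ⟨f x, rfl⟩, hyW (f x)⟩)
  have hPcount : ∀ p ∈ P, {V ∈ 𝒱 | (f '' V ∩ f '' p).Nonempty}.Countable := by
    intro p hp
    obtain ⟨_, ⟨y, rfl⟩, h⟩ := hPr p hp
    refine (hWc y).mono ?_
    rintro V ⟨hV, z, hz1, x, hx, rfl⟩
    exact ⟨hV, _, hz1, h hx⟩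
  -- the open expansion of the image of a member
  let S : Set X → Set X := fun V => ⋃₀ {p ∈ P | (f '' V ∩ f '' p).Nonempty}
  let g : Set X → Set Y := fun V => {y | f ⁻¹' {y} ⊆ S V}
  have hSo : ∀ V, IsOpen (S V) := fun V => isOpen_sUnion fun p hp => hPo p hp.1
  have hgo : ∀ V, IsOpen (g V) := fun V => isOpen_sharp hcl (hSo V)
  have hVg : ∀ V, f '' V ⊆ g V := by
    intro V y hy x hx
    obtain ⟨p, hp, hxp⟩ := mem_sUnion.1 (hPc ▸ mem_univ x : x ∈ ⋃₀ P)
    have hxy : f x = y := hx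
    exact mem_sUnion.2 ⟨p, ⟨hp, y, hy, x, hxp, hxy⟩, hxp⟩
  have hgl : ∀ y : Y, ∃ O : Set Y, IsOpen O ∧ y ∈ O ∧ {V ∈ 𝒱 | (g V ∩ O).Nonempty}.Countable := by
    intro y
    obtain ⟨O, hO, hyO, hOc⟩ := image_countable hcl hL hPl y
    refine ⟨O, hO, hyO, ?_⟩
    refine (hOc.biUnion (t := fun p _ => {V ∈ 𝒱 | (f '' V ∩ f '' p).Nonempty})
      fun p hp => hPcount p hp.1).mono ?_
    rintro V ⟨hV, z, hz, hzO⟩
    obtain ⟨x, rfl⟩ := hs z
    obtain ⟨p, ⟨hp, hpV⟩, hxp⟩ := mem_sUnion.1 (hz rfl : x ∈ S V)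
    exact mem_iUnion₂.2 ⟨p, ⟨hp, f x, ⟨x, hxp, rfl⟩, hzO⟩, hV, hpV⟩
  refine ⟨(fun V => g V ∩ u V) '' 𝒱, ?_, ?_, ?_, ?_⟩
  · rintro _ ⟨V, hV, rfl⟩
    exact (hgo V).inter (hU _ (hu V hV))
  · refine eq_univ_of_forall fun y => ?_
    obtain ⟨x, rfl⟩ := hs y
    obtain ⟨V, hV, hx⟩ := mem_sUnion.1 (hVc ▸ mem_univ x : x ∈ ⋃₀ 𝒱)
    exact mem_sUnion.2 ⟨_, ⟨V, hV, rfl⟩, hVg V ⟨x, hx, rfl⟩, hVu V hV hx⟩
  · rintro _ ⟨V, hV, rfl⟩
    exact ⟨u V, hu V hV, inter_subset_right⟩
  · intro y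
    obtain ⟨O, hO, hyO, hOc⟩ := hgl y
    refine ⟨O, hO.mem_nhds hyO, (hOc.image fun V => g V ∩ u V).mono ?_⟩
    rintro _ ⟨⟨V, hV, rfl⟩, z, ⟨hz1, _⟩, hz2⟩
    exact ⟨V, ⟨hV, z, hz1, hz2⟩, rfl⟩

end Pool.Agent.Results.MP_6bd103_gt.LindelofFibres
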